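import Pool.Agent.E8helper30.TD.Stm

/-!
# Project TD, piece LAT
-/

set_option autoImplicit false

namespace Pool.Agent.E8helper90.TD

open Pool.Agent.E8helper30.TD

theorem inL_sub {a b c x y x' y' : ℤ} (h : InL a b c x y) (h' : InL a b c x' y') :
    InL a b c (x - x') (y - y') := by
  obtain ⟨m, n, h1, h2⟩ := h
  obtain ⟨m', n', h1', h2'⟩ := h'
  exact ⟨m - m', n - n', by rw [h1, h1']; ring, by rw [h2, h2']; ring⟩

theorem t_LAT : S_LAT := by
  intro a b c M c₁ c₂ A Nm rep ha hc hM hrep hmin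
  have key : ∀ x y : ℤ, ∃ p : ℤ × ℤ, InL a b c (x - p.1) (y - p.2) ∧
      N (M * p.1 - c₁) (M * p.2 - c₂) ≤ A := by
    intro x y
    obtain ⟨h1, h2⟩ := hrep ((x - b * (y / c)) % a) (y % c) (Int.emod_nonneg _ ha.ne')
      (Int.emod_lt_of_pos _ ha) (Int.emod_nonneg _ hc.ne') (Int.emod_lt_of_pos _ hc)
    refine ⟨rep ((x - b * (y / c)) % a) (y % c), ?_, h2⟩
    have h3 : InL a b c (x - (x - b * (y / c)) % a) (y - y % c) := by
      refine ⟨(x - b * (y / c)) / a, y / c, ?_, ?_⟩
      · have := Int.emod_add_mul_ediv (x - b * (y / c)) a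
        linarith
      · have := Int.emod_add_mul_ediv y c
        linarith
    have h4 := inL_sub h3 h1
    have e1 : x - (x - b * (y / c)) % a - ((rep ((x - b * (y / c)) % a) (y % c)).1 -
        (x - b * (y / c)) % a) = x - (rep ((x - b * (y / c)) % a) (y % c)).1 := by ring
    have e2 : y - y % c - ((rep ((x - b * (y / c)) % a) (y % c)).2 - y % c) =
        y - (rep ((x - b * (y / c)) % a) (y % c)).2 := by ring
    rw [e1, e2] at h4
    exact h4
  choose p hp1 hp2 using key
  refine ⟨fun x y => (M * (x - (p x y).1) + c₁, M * (y - (p x y).2) + c₂), fun x y => ?_,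
    fun x y x' y' => ?_⟩
  · have e1 : M * x - (M * (x - (p x y).1) + c₁) = M * (p x y).1 - c₁ := by ring
    have e2 : M * y - (M * (y - (p x y).2) + c₂) = M * (p x y).2 - c₂ := by ring
    simp only [e1, e2]
    exact hp2 x y
  · rcases hmin _ _ (inL_sub (hp1 x y) (hp1 x' y')) with ⟨h1, h2⟩ | h
    · left
      have e1 : x - (p x y).1 = x' - (p x' y').1 := sub_eq_zero.1 h1
      have e2 : y - (p x y).2 = y' - (p x' y').2 := sub_eq_zero.1 h2
      simp only [e1, e2]
    · right
      have e : N (M * (x - (p x y).1) + c₁ - (M * (x' - (p x' y').1) + c₁))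
          (M * (y - (p x y).2) + c₂ - (M * (y' - (p x' y').2) + c₂)) =
          M ^ 2 * N (x - (p x y).1 - (x' - (p x' y').1)) (y - (p x y).2 - (y' - (p x' y').2)) := by
        simp only [N]
        ring
      simp only [e]
      exact mul_le_mul_of_nonneg_left h (by positivity)

end Pool.Agent.E8helper90.TD
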